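import Pool.Agent.Helper61.P3.St1

/-!
# Project P3 (MP_cb927e_an): module ENC, the energy of the trace on a line and the energy in the plane
-/

set_option autoImplicit false

open MeasureTheory Set Filter Topology
open scoped ENNReal RealInnerProductSpace

namespace Pool.Agent.Helper74.P3

open Pool.Agent.Helper61.P3 Pool.Agent.Helper20.RG Pool.Agent.Helper20.EQ
open Pool.Agent.Helper68.LM (Pl BB Bd Av HL ft fm DQ)
open Pool.Agent.Helper68.EP (elt GapP)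

/-- averages over whole intervals of scale `ℓ` -/
theorem ed_le (hGR : Pool.Agent.Helper61.P3.StGR) (hGA : Pool.Agent.Helper61.P3.StGA) (κ : ℤ → ℝ) (hκ : Gr κ)
    (ℓ : ℤ) (L p : ℝ) (hL : (2 : ℝ) ^ ℓ ≤ L) (g : ℝ → ℝ) (M : ℝ) (hg : Measurable g) (hg0 : ∀ t, 0 ≤ g t)
    (hgM : ∀ t, g t ≤ M) :
    ∫⁻ t in Icc (p - 6 * L) (p + 6 * L), ENNReal.ofReal (Ed κ ℓ g t) ≤
      ∫⁻ t in Icc (p - 7 * L) (p + 7 * L), ENNReal.ofReal (g t) := by
  set G : ℝ → ℝ := (Icc (p - 7 * L) (p + 7 * L)).indicator g with hG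
  have hGm : Measurable G := hg.indicator measurableSet_Icc
  have hM0 : 0 ≤ M := le_trans (hg0 0) (hgM 0)
  have hGb : ∀ t, |G t| ≤ M := by
    intro t
    by_cases ht : t ∈ Icc (p - 7 * L) (p + 7 * L)
    · rw [hG, indicator_of_mem ht, abs_of_nonneg (hg0 t)]
      exact hgM t
    · rw [hG, indicator_of_notMem ht, abs_zero]
      exact hM0
  obtain ⟨-, -, -, -, -, -, -, -, -, hlast⟩ := hGA κ hκ G M ℓ hGm hGb
  have hgr := hGR.1 κ hκ
  have h1 : ∀ t ∈ Icc (p - 6 * L) (p + 6 * L), Ed κ ℓ g t = Ed κ ℓ G t := by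
    intro t ht
    have hm : t ∈ Ia κ ℓ t := (hgr ℓ t).1
    have hsub : ∀ r ∈ Ia κ ℓ t, g r = G r := by
      intro r hr
      have hr' : r ∈ Icc (p - 7 * L) (p + 7 * L) := by
        have e1 := hm.1
        have e2 := hm.2
        have e3 := hr.1
        have e4 := hr.2
        have e5 := ht.1
        have e6 := ht.2
        constructor <;> linarith
      rw [hG, indicator_of_mem hr']
    unfold Ed
    congr 1
    exact setIntegral_congr_fun ((hgr ℓ t).2.1) (fun r hr => hsub r hr)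
  calc ∫⁻ t in Icc (p - 6 * L) (p + 6 * L), ENNReal.ofReal (Ed κ ℓ g t)
      ≤ ∫⁻ t in Icc (p - 6 * L) (p + 6 * L), ENNReal.ofReal |Ed κ ℓ G t| := by
        refine setLIntegral_mono' measurableSet_Icc (fun t ht => ?_)
        rw [h1 t ht]
        exact ENNReal.ofReal_le_ofReal (le_abs_self _)
    _ ≤ ∫⁻ t, ENNReal.ofReal |Ed κ ℓ G t| := setLIntegral_le_lintegral _ _
    _ ≤ ∫⁻ t, ENNReal.ofReal |G t| := hlast
    _ = ∫⁻ t, (Icc (p - 7 * L) (p + 7 * L)).indicator (fun t => ENNReal.ofReal (g t)) t := by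
        refine lintegral_congr (fun t => ?_)
        by_cases ht : t ∈ Icc (p - 7 * L) (p + 7 * L)
        · rw [hG, indicator_of_mem ht, indicator_of_mem ht, abs_of_nonneg (hg0 t)]
        · rw [hG, indicator_of_notMem ht, indicator_of_notMem ht, abs_zero, ENNReal.ofReal_zero]
    _ = ∫⁻ t in Icc (p - 7 * L) (p + 7 * L), ENNReal.ofReal (g t) := lintegral_indicator measurableSet_Icc _

/-- the map `(y₀, ρ) ↦ pt y₀ (ρ + s y₀)` preserves the measure -/
theorem shear (hPT : Pool.Agent.Helper20.RG.StPT) (s : ℝ) (f : Pl → ℝ≥0∞) (hf : Measurable f) (J K : Set ℝ) :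
    ∫⁻ y₀ in J, ∫⁻ ρ in K, f (pt y₀ (ρ + s * y₀)) ≤ ∫⁻ x, f x := by
  obtain ⟨-, -, -, -, -, hF, -, -⟩ := hPT
  rw [hF f hf]
  calc ∫⁻ y₀ in J, ∫⁻ ρ in K, f (pt y₀ (ρ + s * y₀))
      ≤ ∫⁻ y₀ in J, ∫⁻ ρ, f (pt y₀ (ρ + s * y₀)) := lintegral_mono (fun y₀ => setLIntegral_le_lintegral _ _)
    _ ≤ ∫⁻ y₀, ∫⁻ ρ, f (pt y₀ (ρ + s * y₀)) := setLIntegral_le_lintegral _ _
    _ = ∫⁻ y₀, ∫⁻ b, f (pt y₀ b) := by
        refine lintegral_congr (fun y₀ => ?_)
        exact lintegral_add_right_eq_self (μ := volume) (fun b => f (pt y₀ b)) (s * y₀)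

/-- module ENC -/
theorem hENC (hPT : Pool.Agent.Helper20.RG.StPT) (hGR : Pool.Agent.Helper61.P3.StGR)
    (hGA : Pool.Agent.Helper61.P3.StGA) (hGE : Pool.Agent.Helper61.P3.StGE) :
    Pool.Agent.Helper61.P3.StENC := by
  intro s κ b Er z a ℓ L₂ Γ δ hs hκ hbc hb01 hEr hL hΓ hδ haℓ hℓ H
  have hpt0 : ∀ x y : ℝ, (pt x y) 0 = x := fun x y => (hPT.1 x y).1
  have hpt1 : ∀ x y : ℝ, (pt x y) 1 = y := fun x y => (hPT.1 x y).2
  have hptc : Continuous fun q : ℝ × ℝ => pt q.1 q.2 := hPT.2.2.2.2.1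
  -- the points
  have hprp : ∀ y₀ ρ : ℝ, pr s (pt y₀ (ρ + s * y₀)) = ρ := by
    intro y₀ ρ
    unfold pr
    rw [hpt0, hpt1]
    ring
  have hsq : ∀ y₀ ∈ Icc (z 0 - L₂ / 2) (z 0 + L₂ / 2), ∀ ρ ∈ Icc (pr s z - 7 * L₂) (pr s z + 7 * L₂),
      pt y₀ (ρ + s * y₀) ∈ Sq z (12 * L₂) := by
    intro y₀ hy ρ hρ
    have e1 : |y₀ - z 0| ≤ L₂ / 2 := abs_le.2 ⟨by linarith [hy.1], by linarith [hy.2]⟩
    have e2 : |ρ - pr s z| ≤ 7 * L₂ := abs_le.2 ⟨by linarith [hρ.1], by linarith [hρ.2]⟩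
    refine ⟨?_, ?_⟩
    · rw [hpt0]
      linarith
    · rw [hpt1]
      have e3 : ρ + s * y₀ - z 1 = (ρ - pr s z) + s * (y₀ - z 0) := by
        unfold pr
        ring
      rw [e3]
      calc |(ρ - pr s z) + s * (y₀ - z 0)| ≤ |ρ - pr s z| + |s * (y₀ - z 0)| := abs_add_le _ _
        _ ≤ 7 * L₂ + 1 * (L₂ / 2) := by
            rw [abs_mul]
            exact add_le_add e2 (mul_le_mul hs e1 (abs_nonneg _) zero_le_one)
        _ ≤ 12 * L₂ := by linarith
  have hz0 : z 0 ∈ Icc (z 0 - L₂ / 2) (z 0 + L₂ / 2) := ⟨by linarith, by linarith⟩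
  -- measurability of the traces
  have hlc : ∀ y₀ : ℝ, Continuous (lnf s b y₀) := by
    intro y₀
    unfold lnf
    refine hbc.comp (hptc.comp (Continuous.prodMk continuous_const ?_))
    exact continuous_id.add continuous_const
  have hl01 : ∀ y₀ ρ : ℝ, 0 ≤ lnf s b y₀ ρ ∧ lnf s b y₀ ρ ≤ 1 := fun y₀ ρ => hb01 _
  set U : Set Pl := Er ∩ Sq z (12 * L₂) with hU
  have hUm : MeasurableSet U := hEr.inter (hPT.2.2.2.2.2.2.2 z (12 * L₂) (by linarith)).1
  set f : Pl → ℝ≥0∞ := U.indicator (fun _ => 1) with hf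
  have hfm : Measurable f := measurable_const.indicator hUm
  set J : Set ℝ := Icc (z 0 - L₂ / 2) (z 0 + L₂ / 2) with hJ
  set K6 : Set ℝ := Icc (pr s z - 6 * L₂) (pr s z + 6 * L₂) with hK6
  set K7 : Set ℝ := Icc (pr s z - 7 * L₂) (pr s z + 7 * L₂) with hK7
  have hV : ∫⁻ y₀ in J, ∫⁻ ρ in K7, f (pt y₀ (ρ + s * y₀)) ≤ volume U := by
    refine le_trans (shear hPT s f hfm J K7) (le_of_eq ?_)
    rw [hf, lintegral_indicator hUm, setLIntegral_one]
  have hJv : volume J = ENNReal.ofReal L₂ := by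
    rw [hJ, Real.volume_Icc]
    congr 1
    ring
  have hmul : ∀ A : ℝ≥0∞, ENNReal.ofReal L₂ * A = ∫⁻ y₀ in J, A := by
    intro A
    rw [setLIntegral_const, hJv, mul_comm]
  have hfmJ : Measurable fun y₀ : ℝ => ∫⁻ ρ in K7, f (pt y₀ (ρ + s * y₀)) := by
    have h2 : Measurable fun q : ℝ × ℝ => f (pt q.1 (q.2 + s * q.1)) := by
      refine hfm.comp ?_
      have h3 : Continuous fun q : ℝ × ℝ => pt q.1 (q.2 + s * q.1) :=
        hptc.comp (Continuous.prodMk continuous_fst (continuous_snd.add (continuous_const.mul continuous_fst)))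
      exact h3.measurable
    exact h2.lintegral_prod_right'
  -- where one of the traces is positive the point is in U
  have hpos : ∀ y₀ ∈ J, ∀ ρ ∈ K7, (0 < lnf s b (z 0) ρ ∨ 0 < lnf s b y₀ ρ) → f (pt y₀ (ρ + s * y₀)) = 1 := by
    intro y₀ hy ρ hρ hor
    have hin : pt y₀ (ρ + s * y₀) ∈ Sq z (12 * L₂) := hsq y₀ hy ρ hρ
    have hinz : pt (z 0) (ρ + s * z 0) ∈ Sq z (12 * L₂) := hsq (z 0) hz0 ρ hρ
    have hEr' : pt y₀ (ρ + s * y₀) ∈ Er := by
      rcases hor with h | h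
      · exact (H _ hinz _ hin (by rw [hprp, hprp])).1 h
      · exact (H _ hin _ hin rfl).1 h
    rw [hf, indicator_of_mem (show pt y₀ (ρ + s * y₀) ∈ U from ⟨hEr', hin⟩)]
  constructor
  · -- energies
    rw [hmul]
    have hβm : Measurable (lnf s b (z 0)) := (hlc (z 0)).measurable
    have hE := hGE κ hκ (lnf s b (z 0)) Γ a ℓ hβm (hl01 (z 0)) hΓ haℓ
    have key : ∀ y₀ ∈ J, ∫⁻ ρ in K6, ENNReal.ofReal (en κ Γ a ℓ (lnf s b (z 0)) ρ) ≤
        (∫⁻ ρ in K6, ENNReal.ofReal (en κ Γ a ℓ (lnf s b y₀) ρ)) +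
          ENNReal.ofReal (2 * Γ * δ) * ∫⁻ ρ in K7, f (pt y₀ (ρ + s * y₀)) := by
      intro y₀ hy
      have hβ'm : Measurable (lnf s b y₀) := (hlc y₀).measurable
      have hE' := hGE κ hκ (lnf s b y₀) Γ a ℓ hβ'm (hl01 y₀) hΓ haℓ
      have hLip := hE.2.2.2.2 (lnf s b y₀) hβ'm (hl01 y₀)
      set g : ℝ → ℝ := fun r => |lnf s b (z 0) r - lnf s b y₀ r| with hg
      have hgm : Measurable g := by
        have h5 : Continuous g := ((hlc (z 0)).sub (hlc y₀)).abs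
        exact h5.measurable
      have hg0 : ∀ t, 0 ≤ g t := fun t => abs_nonneg _
      have hg1 : ∀ t, g t ≤ 1 := by
        intro t
        have e1 := hl01 (z 0) t
        have e2 := hl01 y₀ t
        exact abs_le.2 ⟨by linarith [e1.1, e2.2], by linarith [e1.2, e2.1]⟩
      have hgδ : ∀ ρ ∈ K7, ENNReal.ofReal (g ρ) ≤ ENNReal.ofReal δ * f (pt y₀ (ρ + s * y₀)) := by
        intro ρ hρ
        by_cases hor : 0 < lnf s b (z 0) ρ ∨ 0 < lnf s b y₀ ρ
        · rw [hpos y₀ hy ρ hρ hor, mul_one]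
          refine ENNReal.ofReal_le_ofReal ?_
          have hin : pt y₀ (ρ + s * y₀) ∈ Sq z (12 * L₂) := hsq y₀ hy ρ hρ
          have hinz : pt (z 0) (ρ + s * z 0) ∈ Sq z (12 * L₂) := hsq (z 0) hz0 ρ hρ
          exact (H _ hinz _ hin (by rw [hprp, hprp])).2
        · push Not at hor
          have e1 : lnf s b (z 0) ρ = 0 := le_antisymm hor.1 (hl01 (z 0) ρ).1
          have e2 : lnf s b y₀ ρ = 0 := le_antisymm hor.2 (hl01 y₀ ρ).1
          have e3 : g ρ = 0 := by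
            rw [hg]
            simp only
            rw [e1, e2, sub_zero, abs_zero]
          rw [e3, ENNReal.ofReal_zero]
          exact zero_le
      calc ∫⁻ ρ in K6, ENNReal.ofReal (en κ Γ a ℓ (lnf s b (z 0)) ρ)
          ≤ ∫⁻ ρ in K6, (ENNReal.ofReal (en κ Γ a ℓ (lnf s b y₀) ρ) +
              ENNReal.ofReal (2 * Γ) * ENNReal.ofReal (Ed κ ℓ g ρ)) := by
            refine lintegral_mono (fun ρ => ?_)
            have e1 := hLip ρ
            have e2 : en κ Γ a ℓ (lnf s b (z 0)) ρ ≤ en κ Γ a ℓ (lnf s b y₀) ρ + 2 * Γ * Ed κ ℓ g ρ := by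
              have e3 := le_trans (le_abs_self _) e1
              linarith
            have e4 : 0 ≤ 2 * Γ := by linarith
            rw [← ENNReal.ofReal_mul e4]
            exact le_trans (ENNReal.ofReal_le_ofReal e2) ENNReal.ofReal_add_le
        _ = (∫⁻ ρ in K6, ENNReal.ofReal (en κ Γ a ℓ (lnf s b y₀) ρ)) +
              ∫⁻ ρ in K6, ENNReal.ofReal (2 * Γ) * ENNReal.ofReal (Ed κ ℓ g ρ) :=
            lintegral_add_left (hE'.1.ennreal_ofReal) _
        _ ≤ (∫⁻ ρ in K6, ENNReal.ofReal (en κ Γ a ℓ (lnf s b y₀) ρ)) +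
              ENNReal.ofReal (2 * Γ * δ) * ∫⁻ ρ in K7, f (pt y₀ (ρ + s * y₀)) := by
            refine add_le_add le_rfl ?_
            rw [lintegral_const_mul' _ _ ENNReal.ofReal_ne_top]
            have e4 : 0 ≤ 2 * Γ := by linarith
            rw [ENNReal.ofReal_mul e4, mul_assoc]
            refine mul_le_mul_right ?_ _
            refine le_trans (ed_le hGR hGA κ hκ ℓ L₂ (pr s z) hℓ g 1 hgm hg0 hg1) ?_
            rw [← lintegral_const_mul' _ _ ENNReal.ofReal_ne_top]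
            exact setLIntegral_mono' measurableSet_Icc (fun ρ hρ => hgδ ρ hρ)
    calc ∫⁻ y₀ in J, ∫⁻ ρ in K6, ENNReal.ofReal (en κ Γ a ℓ (lnf s b (z 0)) ρ)
        ≤ ∫⁻ y₀ in J, ((∫⁻ ρ in K6, ENNReal.ofReal (en κ Γ a ℓ (lnf s b y₀) ρ)) +
            ENNReal.ofReal (2 * Γ * δ) * ∫⁻ ρ in K7, f (pt y₀ (ρ + s * y₀))) :=
          setLIntegral_mono' measurableSet_Icc key
      _ = (∫⁻ y₀ in J, ∫⁻ ρ in K6, ENNReal.ofReal (en κ Γ a ℓ (lnf s b y₀) ρ)) +
            ∫⁻ y₀ in J, ENNReal.ofReal (2 * Γ * δ) * ∫⁻ ρ in K7, f (pt y₀ (ρ + s * y₀)) :=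
          lintegral_add_right _ (hfmJ.const_mul _)
      _ ≤ LE s κ Γ a ℓ b z L₂ + ENNReal.ofReal (2 * Γ * δ) * volume U := by
          refine add_le_add (le_of_eq rfl) ?_
          rw [lintegral_const_mul _ hfmJ]
          exact mul_le_mul_right hV _
  · -- the second clause
    rw [hmul]
    refine le_trans ?_ hV
    refine setLIntegral_mono' measurableSet_Icc (fun y₀ hy => ?_)
    refine setLIntegral_mono' measurableSet_Icc (fun ρ hρ => ?_)
    by_cases hp : 0 < lnf s b (z 0) ρ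
    · rw [hpos y₀ hy ρ hρ (Or.inl hp)]
      calc ENNReal.ofReal (lnf s b (z 0) ρ) ≤ ENNReal.ofReal 1 := ENNReal.ofReal_le_ofReal (hl01 (z 0) ρ).2
        _ = 1 := ENNReal.ofReal_one
    · rw [ENNReal.ofReal_of_nonpos (not_lt.1 hp)]
      exact zero_le

end Pool.Agent.Helper74.P3
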