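import Pool.Agent.Helper61.P3.St2

/-!
# Project P3 (MP_cb927e_an): module ENS, the energies of one class
-/

set_option autoImplicit false

open MeasureTheory Set Filter Topology
open scoped ENNReal RealInnerProductSpace

namespace Pool.Agent.Helper74.P3

open Pool.Agent.Helper61.P3 Pool.Agent.Helper20.RG Pool.Agent.Helper20.EQ
open Pool.Agent.Helper68.LM (Pl BB Bd Av HL ft fm DQ)
open Pool.Agent.Helper68.EP (elt GapP)

theorem enorm_sq (t : ℝ) : ‖t‖ₑ ^ 2 = ENNReal.ofReal (t ^ 2) := by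
  rw [Real.enorm_eq_ofReal_abs, ← ENNReal.ofReal_pow (abs_nonneg t), sq_abs]

theorem ct_cont : Continuous ct := by
  unfold ct
  fun_prop

theorem zc_eq (c : Pl) (φ τ : ℝ → ℝ) (u w : ℕ) (k : ℤ) (j : ℕ) (g : Pl → ℝ) (x : Pl) :
    Zc c φ τ u w k j g x = Zo τ u w k j g (x - (2 : ℝ) ^ k • ce c φ u j) := by
  unfold Zc Zo Z Y
  rw [smul_zero, sub_zero]

theorem zo_meas (hYB : Pool.Agent.Helper20.RG.StYB) (φ τ : ℝ → ℝ) (hG : Graph φ τ) (u w : ℕ) (k : ℤ) (j : ℕ)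
    (g : Pl → ℝ) (hg : BB g) : Measurable (Zo τ u w k j g) := by
  have hs : |sl τ u j| ≤ 1 := hG.1 _
  have hw : (0 : ℝ) < (2 : ℝ) ^ w := by positivity
  have h1 := (hYB (sl τ u j) 0 (mm τ u j) ((2 : ℝ) ^ w) k g hs hw hg).1.1
  have h2 := (hYB (sl τ u j) 0 (mp τ u j) ((2 : ℝ) ^ w) k g hs hw hg).1.1
  exact h1.sub h2

theorem bb_fin (g : Pl → ℝ) (hg : BB g) : ∫⁻ x, ‖g x‖ₑ ^ 2 ≠ ∞ := by
  obtain ⟨-, K, hK, hK0⟩ := hg
  have h1 : ∫⁻ x, ‖g x‖ₑ ^ 2 ≤
      ∫⁻ x, (Metric.closedBall (0 : Pl) K).indicator (fun _ => ENNReal.ofReal (K ^ 2)) x := by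
    refine lintegral_mono (fun x => ?_)
    by_cases hx : x ∈ Metric.closedBall (0 : Pl) K
    · rw [indicator_of_mem hx, enorm_sq]
      refine ENNReal.ofReal_le_ofReal ?_
      exact sq_le_sq' (by linarith [(abs_le.1 (hK x)).1]) (abs_le.1 (hK x)).2
    · rw [indicator_of_notMem hx]
      have hx' : K < ‖x‖ := by
        rw [Metric.mem_closedBall, dist_zero_right] at hx
        exact not_le.1 hx
      simp only
      rw [hK0 x hx', enorm_sq]
      simp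
  rw [lintegral_indicator Metric.isClosed_closedBall.measurableSet, setLIntegral_const] at h1
  refine ne_top_of_le_ne_top ?_ h1
  exact ENNReal.mul_ne_top ENNReal.ofReal_ne_top measure_closedBall_lt_top.ne

/-- difference of two cutoffs, integrated -/
theorem int_diff (hTRA : Pool.Agent.Helper61.P3.StTRA) (P Q : Pl → ℝ) (hP : Measurable P) (hQ : Measurable Q)
    (η ϖ : ℝ) (hη : 0 < η) (hϖ : 0 < ϖ) :
    ∫⁻ x, ENNReal.ofReal |ct (|P x| / η) - ct (|Q x| / η)| ≤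
      ENNReal.ofReal (32 / η ^ 2) * (ENNReal.ofReal (1 / ϖ) * (∫⁻ x, ‖P x - Q x‖ₑ ^ 2) +
        ENNReal.ofReal ϖ * ((∫⁻ x, ‖P x‖ₑ ^ 2) + ∫⁻ x, ‖Q x‖ₑ ^ 2)) := by
  have h3 := hTRA.2.2.1
  have hP2 : Measurable fun x => ‖P x‖ₑ ^ 2 := (hP.enorm).pow_const 2
  have hPQ2 : Measurable fun x => ‖P x - Q x‖ₑ ^ 2 := ((hP.sub hQ).enorm).pow_const 2
  calc ∫⁻ x, ENNReal.ofReal |ct (|P x| / η) - ct (|Q x| / η)|
      ≤ ∫⁻ x, ENNReal.ofReal (32 / η ^ 2) * (ENNReal.ofReal (1 / ϖ) * ‖P x - Q x‖ₑ ^ 2 +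
          ENNReal.ofReal ϖ * (‖P x‖ₑ ^ 2 + ‖Q x‖ₑ ^ 2)) := by
        refine lintegral_mono (fun x => ?_)
        have e1 := h3 (P x) (Q x) η ϖ hη hϖ
        simp only
        rw [enorm_sq, enorm_sq, enorm_sq, ← ENNReal.ofReal_add (sq_nonneg _) (sq_nonneg _),
          ← ENNReal.ofReal_mul (by positivity), ← ENNReal.ofReal_mul hϖ.le,
          ← ENNReal.ofReal_add (by positivity) (by positivity), ← ENNReal.ofReal_mul (by positivity)]
        refine ENNReal.ofReal_le_ofReal (le_trans e1 (le_of_eq ?_))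
        ring
    _ = _ := by
        rw [lintegral_const_mul' _ _ ENNReal.ofReal_ne_top, lintegral_add_left (hPQ2.const_mul _),
          lintegral_const_mul' _ _ ENNReal.ofReal_ne_top, lintegral_const_mul' _ _ ENNReal.ofReal_ne_top,
          lintegral_add_left hP2]

theorem om3_pos (v l : ℕ) : 0 < om3 v l := by
  unfold om3
  positivity

theorem tj_ge (τ : ℝ → ℝ) (u v j q : ℕ) (hv : v ≤ u) (hq : q ≤ Wv τ u j v) :
    24 * q + Wv τ u j v ≤ Tj τ u v j := by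
  unfold Wv at hq ⊢
  unfold Tj
  rw [if_pos hv] at hq ⊢
  omega

/-- module ENS -/
theorem hENS (hYC : Pool.Agent.Helper20.RG.StYC) (hYB : Pool.Agent.Helper20.RG.StYB)
    (hSYS : Pool.Agent.Helper20.RG.StSYS) (hGPG : Pool.Agent.Helper68.EP.StGPG)
    (hGR : Pool.Agent.Helper61.P3.StGR) (hLOW : Pool.Agent.Helper61.P3.StLOW)
    (hTRA : Pool.Agent.Helper61.P3.StTRA) (hSHQ : Pool.Agent.Helper61.P3.StSHQ) :
    Pool.Agent.Helper61.P3.StENS := by
  intro φ τ A c hG hA hgap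
  obtain ⟨C, hC1, hC⟩ := hSHQ φ τ A c hG hA hgap
  refine ⟨128 * C, by linarith, ?_⟩
  intro u q v₀ η Γ g hu hq hv₀ hη hη1 hΓ hg hg01
  obtain ⟨hS1, hS2, -, hS4⟩ := hC u (32 * q) g hu hg
  have hC0 : 0 ≤ C := by linarith
  -- abbreviations
  set Zk : ℤ → ℕ → Pl → ℝ := fun k j => Zo τ u (32 * q) k j g with hZk
  have hZm : ∀ k j, Measurable (Zk k j) := fun k j => zo_meas hYB φ τ hG u (32 * q) k j g hg
  set B : ℤ → ℕ → ℝ≥0∞ := fun k j => ∫⁻ x, ‖Zk k j x‖ₑ ^ 2 with hB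
  set D : ℤ → ℕ → ℕ → ℕ → ℝ≥0∞ :=
    fun k j v l => ∫⁻ x, ‖Zk k j x - Zk (k + ((2 ^ l * Tj τ u v j : ℕ) : ℤ)) j x‖ₑ ^ 2 with hD
  have hS1' : ∑ j ∈ Finset.range (2 ^ u), ∑' k : ℤ, B k j ≤ ENNReal.ofReal C * BQ0 τ u g := by
    rw [← Summable.tsum_finsetSum (fun _ _ => ENNReal.summable)]
    exact hS1
  have hS2' : ∀ v l : ℕ, 1 ≤ v → v ≤ u → ∑ j ∈ Finset.range (2 ^ u), ∑' k : ℤ, D k j v l ≤
      ENNReal.ofReal C * BQ τ u v l g := by
    intro v l h1 h2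
    rw [← Summable.tsum_finsetSum (fun _ _ => ENNReal.summable)]
    exact hS2 v l h1 h2
  have hBfin : ∀ j ∈ Finset.range (2 ^ u), ∑' k : ℤ, B k j ≠ ∞ := by
    intro j hj
    have h1 : ∑' k : ℤ, B k j ≤ ENNReal.ofReal C * BQ0 τ u g :=
      le_trans (Finset.single_le_sum (f := fun j => ∑' k : ℤ, B k j) (fun _ _ => zero_le) hj) hS1'
    refine ne_top_of_le_ne_top ?_ h1
    refine ENNReal.mul_ne_top ENNReal.ofReal_ne_top ?_
    refine ne_top_of_le_ne_top ?_ hS4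
    exact ENNReal.mul_ne_top ENNReal.ofReal_ne_top (bb_fin g hg)
  set b : ℤ → ℕ → Pl → ℝ := fun k j => bo τ u (32 * q) η k j g with hb
  have hbm : ∀ k j, Measurable (b k j) := by
    intro k j
    have h1 : Measurable fun x => |Zk k j x| / η := ((hZm k j).abs).div_const η
    exact ct_cont.measurable.comp h1
  have hb01 : ∀ k j x, 0 ≤ b k j x ∧ b k j x ≤ 1 := by
    intro k j x
    have h1 := hTRA.2.2.2.1 (Zk k j x) η hη
    exact ⟨h1.1, h1.2.1⟩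
  have hbfin : ∀ j ∈ Finset.range (2 ^ u), ∑' k : ℤ, ∫⁻ x, ENNReal.ofReal (b k j x) ≠ ∞ := by
    intro j hj
    have h1 : ∀ k : ℤ, ∫⁻ x, ENNReal.ofReal (b k j x) ≤ ENNReal.ofReal (16 / η ^ 2) * B k j := by
      intro k
      rw [hB]
      simp only
      rw [← lintegral_const_mul' _ _ ENNReal.ofReal_ne_top]
      refine lintegral_mono (fun x => ?_)
      have h2 := (hTRA.2.2.2.1 (Zk k j x) η hη).2.2
      simp only
      rw [enorm_sq, ← ENNReal.ofReal_mul (by positivity)]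
      refine ENNReal.ofReal_le_ofReal (le_trans h2 (le_of_eq ?_))
      ring
    refine ne_top_of_le_ne_top ?_ (ENNReal.tsum_le_tsum h1)
    rw [ENNReal.tsum_mul_left]
    exact ENNReal.mul_ne_top ENNReal.ofReal_ne_top (hBfin j hj)
  -- LOW
  set G : ℕ → ℕ → ℝ≥0∞ := fun j v => ENNReal.ofReal Γ * ∑' l : ℕ, ENNReal.ofReal ((1 / 2 : ℝ) ^ l) *
        ∑' k : ℤ, ∫⁻ x, ENNReal.ofReal |b k j x - b (k + ((2 ^ l * Tj τ u v j : ℕ) : ℤ)) j x| with hGd
  have hlow : ∀ j ∈ Finset.range (2 ^ u), ∀ v i : ℕ,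
      ∑' k : ℤ, EN (sl τ u j) (gk i 0) Γ (k + 24 * (q : ℤ) - (Tj τ u v j : ℤ)) (k + 24 * (q : ℤ)) (b k j) ≤
        G j v := by
    intro j hj v i
    exact hLOW (sl τ u j) (gk i 0) Γ (24 * (q : ℤ)) (Tj τ u v j) (fun k => b k j) (hG.1 _) (hGR.2.1 i 0) hΓ
      (fun k => ⟨hbm k j, hb01 k j⟩) (hbfin j hj)
  -- the energies
  have hen : ∀ (k : ℤ) (j v i : ℕ), v ≤ u → q ≤ Wv τ u j v →
      EN (sl τ u j) (gk i (pr (sl τ u j) ((2 : ℝ) ^ k • ce c φ u j))) Γ (k - (Wv τ u j v : ℤ))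
        (k + 24 * (q : ℤ)) (bz c φ τ u (32 * q) η k j g) ≤
      EN (sl τ u j) (gk i 0) Γ (k + 24 * (q : ℤ) - (Tj τ u v j : ℤ)) (k + 24 * (q : ℤ)) (b k j) := by
    intro k j v i hv hqW
    have h1 : bz c φ τ u (32 * q) η k j g = fun y => b k j (y - (2 : ℝ) ^ k • ce c φ u j) := by
      funext y
      rw [hb]
      unfold bz bo
      rw [zc_eq]
    have h2 := hTRA.1 (sl τ u j) 0 Γ i (k - (Wv τ u j v : ℤ)) (k + 24 * (q : ℤ)) (b k j)
      ((2 : ℝ) ^ k • ce c φ u j)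
    rw [zero_add] at h2
    rw [h1, h2]
    have h3 := tj_ge τ u v j q hv hqW
    refine hTRA.2.1 (sl τ u j) Γ (gk i 0) _ _ _ (b k j) (hGR.2.1 i 0) hΓ (hbm k j) (hb01 k j) ?_ ?_
    · push_cast [← Int.ofNat_le] at h3
      omega
    · omega
  -- first bound
  have hfirst : ∑' k : ℤ, EC c φ τ u q v₀ η Γ k g ≤
      ∑ v ∈ Finset.Icc v₀ u, ENNReal.ofReal ((2 : ℝ) ^ v) * (2 * ∑ j ∈ Finset.range (2 ^ u), G j v) := by
    calc ∑' k : ℤ, EC c φ τ u q v₀ η Γ k g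
        ≤ ∑' k : ℤ, ∑ j ∈ Finset.range (2 ^ u), ∑ v ∈ Finset.Icc v₀ u, ENNReal.ofReal ((2 : ℝ) ^ v) *
            ∑ i ∈ Finset.range 2, EN (sl τ u j) (gk i 0) Γ (k + 24 * (q : ℤ) - (Tj τ u v j : ℤ))
              (k + 24 * (q : ℤ)) (b k j) := by
          refine ENNReal.tsum_le_tsum (fun k => ?_)
          unfold EC
          refine Finset.sum_le_sum (fun j _ => Finset.sum_le_sum (fun v hv => ?_))
          by_cases hqW : q ≤ Wv τ u j v
          · rw [if_pos hqW]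
            refine mul_le_mul_right (Finset.sum_le_sum (fun i _ => ?_)) _
            exact hen k j v i (Finset.mem_Icc.1 hv).2 hqW
          · rw [if_neg hqW]
            exact zero_le
      _ = ∑ j ∈ Finset.range (2 ^ u), ∑ v ∈ Finset.Icc v₀ u, ENNReal.ofReal ((2 : ℝ) ^ v) *
            ∑ i ∈ Finset.range 2, ∑' k : ℤ, EN (sl τ u j) (gk i 0) Γ
              (k + 24 * (q : ℤ) - (Tj τ u v j : ℤ)) (k + 24 * (q : ℤ)) (b k j) := by
          rw [Summable.tsum_finsetSum (fun _ _ => ENNReal.summable)]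
          refine Finset.sum_congr rfl (fun j _ => ?_)
          rw [Summable.tsum_finsetSum (fun _ _ => ENNReal.summable)]
          refine Finset.sum_congr rfl (fun v _ => ?_)
          rw [ENNReal.tsum_mul_left]
          congr 1
          rw [Summable.tsum_finsetSum (fun _ _ => ENNReal.summable)]
      _ ≤ ∑ j ∈ Finset.range (2 ^ u), ∑ v ∈ Finset.Icc v₀ u, ENNReal.ofReal ((2 : ℝ) ^ v) * (2 * G j v) := by
          refine Finset.sum_le_sum (fun j hj => Finset.sum_le_sum (fun v _ => mul_le_mul_right ?_ _))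
          calc ∑ i ∈ Finset.range 2, ∑' k : ℤ, EN (sl τ u j) (gk i 0) Γ
                (k + 24 * (q : ℤ) - (Tj τ u v j : ℤ)) (k + 24 * (q : ℤ)) (b k j)
              ≤ ∑ i ∈ Finset.range 2, G j v := Finset.sum_le_sum (fun i _ => hlow j hj v i)
            _ = 2 * G j v := by
                rw [Finset.sum_const, Finset.card_range, nsmul_eq_mul]
                norm_num
      _ = ∑ v ∈ Finset.Icc v₀ u, ENNReal.ofReal ((2 : ℝ) ^ v) * (2 * ∑ j ∈ Finset.range (2 ^ u), G j v) := by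
          rw [Finset.sum_comm]
          refine Finset.sum_congr rfl (fun v _ => ?_)
          rw [Finset.mul_sum, Finset.mul_sum]
  -- bound for the sum of G
  have hGb : ∀ v ∈ Finset.Icc v₀ u, ∑ j ∈ Finset.range (2 ^ u), G j v ≤
      ENNReal.ofReal Γ * ∑' l : ℕ, ENNReal.ofReal ((1 / 2 : ℝ) ^ l) * (ENNReal.ofReal (32 / η ^ 2) *
        (ENNReal.ofReal (1 / om3 v l) * (ENNReal.ofReal C * BQ τ u v l g) +
          ENNReal.ofReal (om3 v l) * (2 * (ENNReal.ofReal C * BQ0 τ u g)))) := by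
    intro v hv
    have hv1 : 1 ≤ v := le_trans hv₀ (Finset.mem_Icc.1 hv).1
    have hvu : v ≤ u := (Finset.mem_Icc.1 hv).2
    rw [hGd]
    simp only
    rw [← Finset.mul_sum]
    refine mul_le_mul_right ?_ _
    rw [← Summable.tsum_finsetSum (fun _ _ => ENNReal.summable)]
    refine ENNReal.tsum_le_tsum (fun l => ?_)
    rw [← Finset.mul_sum]
    refine mul_le_mul_right ?_ _
    have hom := om3_pos v l
    calc ∑ j ∈ Finset.range (2 ^ u), ∑' k : ℤ,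
          ∫⁻ x, ENNReal.ofReal |b k j x - b (k + ((2 ^ l * Tj τ u v j : ℕ) : ℤ)) j x|
        ≤ ∑ j ∈ Finset.range (2 ^ u), ∑' k : ℤ, ENNReal.ofReal (32 / η ^ 2) *
            (ENNReal.ofReal (1 / om3 v l) * D k j v l +
              ENNReal.ofReal (om3 v l) * (B k j + B (k + ((2 ^ l * Tj τ u v j : ℕ) : ℤ)) j)) := by
          refine Finset.sum_le_sum (fun j _ => ENNReal.tsum_le_tsum (fun k => ?_))
          exact int_diff hTRA (Zk k j) (Zk (k + ((2 ^ l * Tj τ u v j : ℕ) : ℤ)) j) (hZm _ _) (hZm _ _) η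
            (om3 v l) hη hom
      _ = ∑ j ∈ Finset.range (2 ^ u), ENNReal.ofReal (32 / η ^ 2) *
            (ENNReal.ofReal (1 / om3 v l) * (∑' k : ℤ, D k j v l) +
              ENNReal.ofReal (om3 v l) * (2 * ∑' k : ℤ, B k j)) := by
          refine Finset.sum_congr rfl (fun j _ => ?_)
          rw [ENNReal.tsum_mul_left, ENNReal.tsum_add, ENNReal.tsum_mul_left, ENNReal.tsum_mul_left,
            ENNReal.tsum_add]
          have hsh : ∑' k : ℤ, B (k + ((2 ^ l * Tj τ u v j : ℕ) : ℤ)) j = ∑' k : ℤ, B k j :=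
            (Equiv.addRight ((2 ^ l * Tj τ u v j : ℕ) : ℤ)).tsum_eq (fun k => B k j)
          rw [hsh, two_mul]
      _ = ENNReal.ofReal (32 / η ^ 2) *
            (ENNReal.ofReal (1 / om3 v l) * (∑ j ∈ Finset.range (2 ^ u), ∑' k : ℤ, D k j v l) +
              ENNReal.ofReal (om3 v l) * (2 * ∑ j ∈ Finset.range (2 ^ u), ∑' k : ℤ, B k j)) := by
          rw [← Finset.mul_sum, Finset.sum_add_distrib, ← Finset.mul_sum, ← Finset.mul_sum, ← Finset.mul_sum]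
      _ ≤ _ := by
          refine mul_le_mul_right (add_le_add (mul_le_mul_right (hS2' v l hv1 hvu) _)
            (mul_le_mul_right (mul_le_mul_right hS1' _) _)) _
  refine le_trans hfirst ?_
  unfold EX
  rw [Finset.mul_sum]
  refine Finset.sum_le_sum (fun v hv => ?_)
  refine le_trans (mul_le_mul_right (mul_le_mul_right (hGb v hv) _) _) ?_
  rw [← ENNReal.tsum_mul_left, ← ENNReal.tsum_mul_left, ← ENNReal.tsum_mul_left, ← ENNReal.tsum_mul_left]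
  refine ENNReal.tsum_le_tsum (fun l => ?_)
  have hom := om3_pos v l
  have hr : (2 : ℝ) ^ ((v : ℝ) - l) = (2 : ℝ) ^ v * (1 / 2 : ℝ) ^ l := by
    rw [Real.rpow_sub two_pos, Real.rpow_natCast, Real.rpow_natCast, one_div, inv_pow, div_eq_mul_inv]
  rw [hr]
  have h2v : (0 : ℝ) ≤ (2 : ℝ) ^ v := by positivity
  have h2l : (0 : ℝ) ≤ (1 / 2 : ℝ) ^ l := by positivity
  have e2 : (2 : ℝ≥0∞) = ENNReal.ofReal 2 := by simp
  have hη2 : (0 : ℝ) ≤ 32 / η ^ 2 := by positivity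
  rw [mul_add, mul_add, mul_add, mul_add, mul_add, mul_add]
  refine add_le_add ?_ ?_
  · have e1 : ENNReal.ofReal ((2 : ℝ) ^ v) * (2 * (ENNReal.ofReal Γ * (ENNReal.ofReal ((1 / 2 : ℝ) ^ l) *
        (ENNReal.ofReal (32 / η ^ 2) * (ENNReal.ofReal (1 / om3 v l) * (ENNReal.ofReal C * BQ τ u v l g)))))) =
        ENNReal.ofReal ((2 : ℝ) ^ v * (2 * (Γ * ((1 / 2 : ℝ) ^ l * (32 / η ^ 2 * (1 / om3 v l * C)))))) *
          BQ τ u v l g := by
      rw [e2, ENNReal.ofReal_mul h2v, ENNReal.ofReal_mul (by norm_num : (0 : ℝ) ≤ 2), ENNReal.ofReal_mul hΓ,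
        ENNReal.ofReal_mul h2l, ENNReal.ofReal_mul hη2, ENNReal.ofReal_mul (by positivity)]
      ring
    rw [e1, ← mul_assoc (ENNReal.ofReal (128 * C * Γ / η ^ 2)), ← ENNReal.ofReal_mul (by positivity)]
    refine mul_le_mul_left (ENNReal.ofReal_le_ofReal ?_) _
    have e3 : (2 : ℝ) ^ v * (2 * (Γ * ((1 / 2 : ℝ) ^ l * (32 / η ^ 2 * (1 / om3 v l * C))))) =
        64 * (C * Γ / η ^ 2 * ((2 : ℝ) ^ v * (1 / 2 : ℝ) ^ l / om3 v l)) := by
      field_simp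
      ring
    have e4 : 128 * C * Γ / η ^ 2 * ((2 : ℝ) ^ v * (1 / 2 : ℝ) ^ l / om3 v l) =
        128 * (C * Γ / η ^ 2 * ((2 : ℝ) ^ v * (1 / 2 : ℝ) ^ l / om3 v l)) := by
      ring
    rw [e3, e4]
    have e5 : 0 ≤ C * Γ / η ^ 2 * ((2 : ℝ) ^ v * (1 / 2 : ℝ) ^ l / om3 v l) := by positivity
    linarith
  · have e1 : ENNReal.ofReal ((2 : ℝ) ^ v) * (2 * (ENNReal.ofReal Γ * (ENNReal.ofReal ((1 / 2 : ℝ) ^ l) *
        (ENNReal.ofReal (32 / η ^ 2) * (ENNReal.ofReal (om3 v l) * (2 * (ENNReal.ofReal C * BQ0 τ u g))))))) =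
        ENNReal.ofReal ((2 : ℝ) ^ v * (2 * (Γ * ((1 / 2 : ℝ) ^ l * (32 / η ^ 2 * (om3 v l * (2 * C))))))) *
          BQ0 τ u g := by
      rw [e2, ENNReal.ofReal_mul h2v, ENNReal.ofReal_mul (by norm_num : (0 : ℝ) ≤ 2), ENNReal.ofReal_mul hΓ,
        ENNReal.ofReal_mul h2l, ENNReal.ofReal_mul hη2, ENNReal.ofReal_mul hom.le,
        ENNReal.ofReal_mul (by norm_num : (0 : ℝ) ≤ 2)]
      ring
    rw [e1, ← mul_assoc (ENNReal.ofReal (128 * C * Γ / η ^ 2)), ← ENNReal.ofReal_mul (by positivity)]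
    refine mul_le_mul_left (ENNReal.ofReal_le_ofReal (le_of_eq ?_)) _
    ring

end Pool.Agent.Helper74.P3
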